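import Pool.Agent.Helper42.GW.St
import Pool.Agent.Helper13.GP.Cyc2

set_option autoImplicit false

namespace Pool.Agent.Helper7.GW

open Pool.Agent.Helper18.GP Pool.Agent.Helper62.GP Pool.Agent.Helper42.GW Relation Classical

private theorem ff_lt {N : ℕ} (l : List (Fin N)) (x : Fin N) :
    (if x ∈ l then (x : ℕ) + N else (x : ℕ)) < N + N := by
  have := x.2
  split_ifs <;> omega

/-- the shift of the labels in `l` -/
private noncomputable def ff {N : ℕ} (l : List (Fin N)) (x : Fin N) : Fin (N + N) :=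
  ⟨if x ∈ l then (x : ℕ) + N else (x : ℕ), ff_lt l x⟩

private theorem ff_mem {N : ℕ} {l : List (Fin N)} {x : Fin N} (h : x ∈ l) :
    ((ff l x : Fin (N + N)) : ℕ) = (x : ℕ) + N := by
  simp [ff, h]

private theorem ff_not {N : ℕ} {l : List (Fin N)} {x : Fin N} (h : x ∉ l) :
    ((ff l x : Fin (N + N)) : ℕ) = (x : ℕ) := by
  simp [ff, h]

private theorem ff_inj {N : ℕ} (l : List (Fin N)) {a b : Fin N} (h : ff l a = ff l b) : a = b := by
  have h1 : ((ff l a : Fin (N + N)) : ℕ) = ff l b := by rw [h]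
  have ha := a.2
  have hb := b.2
  apply Fin.ext
  by_cases h2 : a ∈ l <;> by_cases h3 : b ∈ l
  · rw [ff_mem h2, ff_mem h3] at h1; omega
  · rw [ff_mem h2, ff_not h3] at h1; omega
  · rw [ff_not h2, ff_mem h3] at h1; omega
  · rw [ff_not h2, ff_not h3] at h1; omega

theorem wRot_thm (hR : wRel) : wRot := by
  rintro u v c₁ c₂ ⟨N, V, G, P, B₁, B₂, hT, hS, hB₁, hB₂, hF, hL₁, hL₂⟩
  set L := V.sort (· ≤ ·) with hL
  set l₁ := L.take u.length with hl₁
  set l₂ := L.drop u.length with hl₂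
  have hLl : l₁ ++ l₂ = L := List.take_append_drop _ _
  have hF₁ : List.Forall₂ (OKI V G P B₁ B₂) l₁ u := List.forall₂_take_append L u v hF
  have hF₂ : List.Forall₂ (OKI V G P B₁ B₂) l₂ v := List.forall₂_drop_append L u v hF
  have hpw : L.Pairwise (· < ·) := by
    have h1 : L.Pairwise (· ≤ ·) := V.pairwise_sort (· ≤ ·)
    have h2 : L.Nodup := V.sort_nodup (· ≤ ·)
    exact (h1.and h2).imp fun {a b} h => lt_of_le_of_ne h.1 h.2
  have hpw' := hpw
  rw [← hLl, List.pairwise_append] at hpw'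
  obtain ⟨hp₁, hp₂, hp₃⟩ := hpw'
  have hmem : ∀ x, x ∈ V ↔ x ∈ l₁ ∨ x ∈ l₂ := by
    intro x
    rw [← List.mem_append, hLl, hL, Finset.mem_sort]
  have hlt : ∀ a ∈ V, ∀ b ∈ V, a ∈ l₁ → b ∉ l₁ → (a : ℕ) < b := by
    intro a _ b hb ha hb'
    exact hp₃ a ha b (((hmem b).1 hb).resolve_left hb')
  have hnot : ∀ b ∈ l₂, b ∉ l₁ := fun b hb hb' => lt_irrefl _ (hp₃ b hb' b hb)
  obtain ⟨G', P', hT', hS', hP', hA', hLn⟩ := hR N (N + N) V G P (ff l₁) hT hS
    (fun a _ b _ h => ff_inj l₁ h) (by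
      intro a ha b hb c hc h
      rw [Pool.Agent.Helper13.GP.Ccw_iff] at h ⊢
      have a1 := a.2
      have a2 := b.2
      have a3 := c.2
      by_cases ha' : a ∈ l₁ <;> by_cases hb' : b ∈ l₁ <;> by_cases hc' : c ∈ l₁
      · rw [ff_mem ha', ff_mem hb', ff_mem hc']; omega
      · have e1 := hlt a ha c hc ha' hc'
        have e2 := hlt b hb c hc hb' hc'
        rw [ff_mem ha', ff_mem hb', ff_not hc']; omega
      · have e1 := hlt a ha b hb ha' hb'
        have e2 := hlt c hc b hb hc' hb'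
        rw [ff_mem ha', ff_not hb', ff_mem hc']; omega
      · have e1 := hlt a ha b hb ha' hb'
        have e2 := hlt a ha c hc ha' hc'
        rw [ff_mem ha', ff_not hb', ff_not hc']; omega
      · have e1 := hlt b hb a ha hb' ha'
        have e2 := hlt c hc a ha hc' ha'
        rw [ff_not ha', ff_mem hb', ff_mem hc']; omega
      · have e1 := hlt b hb a ha hb' ha'
        have e2 := hlt b hb c hc hb' hc'
        rw [ff_not ha', ff_mem hb', ff_not hc']; omega
      · have e1 := hlt c hc a ha hc' ha'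
        have e2 := hlt c hc b hb hc' hb'
        rw [ff_not ha', ff_not hb', ff_mem hc']; omega
      · rw [ff_not ha', ff_not hb', ff_not hc']; omega)
  refine ⟨N + N, V.image (ff l₁), G', P', B₁.image (ff l₁), B₂.image (ff l₁), hT', hS',
    Finset.image_subset_image hB₁, Finset.image_subset_image hB₂, ?_, (hLn B₁ hB₁).trans hL₁,
    (hLn B₂ hB₂).trans hL₂⟩
  have hsort : (V.image (ff l₁)).sort (· ≤ ·) = l₂.map (ff l₁) ++ l₁.map (ff l₁) := by
    have hpl : (l₂.map (ff l₁) ++ l₁.map (ff l₁)).Pairwise (· < ·) := by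
      rw [List.pairwise_append]
      refine ⟨?_, ?_, ?_⟩
      · rw [List.pairwise_map]
        refine hp₂.imp_of_mem ?_
        intro a b ha hb h
        rw [Fin.lt_def, ff_not (hnot a ha), ff_not (hnot b hb)]
        exact h
      · rw [List.pairwise_map]
        refine hp₁.imp_of_mem ?_
        intro a b ha hb h
        rw [Fin.lt_def, ff_mem ha, ff_mem hb]
        have : (a : ℕ) < b := h
        omega
      · intro x hx y hy
        obtain ⟨a, ha, rfl⟩ := List.mem_map.1 hx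
        obtain ⟨b, hb, rfl⟩ := List.mem_map.1 hy
        rw [Fin.lt_def, ff_not (hnot a ha), ff_mem hb]
        have := a.2
        omega
    have hnd : (l₂.map (ff l₁) ++ l₁.map (ff l₁)).Nodup := hpl.imp fun {a b} h => h.ne
    have hfin : V.image (ff l₁) = (l₂.map (ff l₁) ++ l₁.map (ff l₁)).toFinset := by
      ext x
      simp only [Finset.mem_image, List.mem_toFinset, List.mem_append, List.mem_map]
      constructor
      · rintro ⟨a, ha, rfl⟩
        rcases (hmem a).1 ha with h | h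
        · exact Or.inr ⟨a, h, rfl⟩
        · exact Or.inl ⟨a, h, rfl⟩
      · rintro (⟨a, ha, rfl⟩ | ⟨a, ha, rfl⟩)
        · exact ⟨a, (hmem a).2 (Or.inr ha), rfl⟩
        · exact ⟨a, (hmem a).2 (Or.inl ha), rfl⟩
    rw [hfin]
    exact (List.toFinset_sort (· ≤ ·) hnd).2 (hpl.imp fun {a b} h => h.le)
  have key : ∀ a i, a ∈ V → OKI V G P B₁ B₂ a i →
      OKI (V.image (ff l₁)) G' P' (B₁.image (ff l₁)) (B₂.image (ff l₁)) (ff l₁ a) i := by
    rintro a i ha ⟨h1, h2, h3, h4⟩
    have him : ∀ B : Finset (Fin N), ff l₁ a ∈ B.image (ff l₁) ↔ a ∈ B := by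
      intro B
      rw [Finset.mem_image]
      exact ⟨fun ⟨b, hb, e⟩ => ff_inj l₁ e ▸ hb, fun h => ⟨a, h, rfl⟩⟩
    exact ⟨(hP' a ha).trans h1, fun α hα => (hA' a ha).trans (h2 α hα), (him B₁).trans h3,
      (him B₂).trans h4⟩
  have lift : ∀ (l : List (Fin N)) (w : List It), (∀ x ∈ l, x ∈ V) →
      List.Forall₂ (OKI V G P B₁ B₂) l w →
      List.Forall₂ (OKI (V.image (ff l₁)) G' P' (B₁.image (ff l₁)) (B₂.image (ff l₁)))
        (l.map (ff l₁)) w := by
    intro l w hl h
    rw [List.forall₂_map_left_iff]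
    exact ((List.forall₂_and_left l w).2 ⟨hl, h⟩).imp fun a i h => key a i h.1 h.2
  rw [hsort]
  exact List.rel_append (lift l₂ v (fun x hx => (hmem x).2 (Or.inr hx)) hF₂)
    (lift l₁ u (fun x hx => (hmem x).2 (Or.inl hx)) hF₁)

end Pool.Agent.Helper7.GW
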