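import Pool.Agent.Helper7.GW.TOW1

/-!
# Project GW, module TOW: all frequencies
-/

set_option autoImplicit false

namespace Pool.Agent.Helper7.GW

open Finset ArithmeticFunction MeasureTheory
open Pool.Agent.Helper23.GK
open Pool.Agent.Helper2.MR (ch)
open Pool.Agent.Helper15.AB (IsW)
open Pool.Agent.Helper47.GK
open Pool.Agent.Helper63.GW

private lemma ev_pow (n : ℕ) (K : ℝ) :
    ∀ᶠ X : ℕ in Filter.atTop, K * Real.log X ^ n ≤ (X : ℝ) ^ (1 / 4 : ℝ) := by
  have h := (isLittleO_log_rpow_rpow_atTop (n : ℝ) (by norm_num : (0 : ℝ) < 1 / 4)).bound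
    (show (0 : ℝ) < 1 / (|K| + 1) by positivity)
  have h2 := (tendsto_natCast_atTop_atTop (R := ℝ)).eventually h
  have h3 : ∀ᶠ X : ℕ in Filter.atTop, 1 ≤ X := Filter.eventually_ge_atTop 1
  filter_upwards [h2, h3] with X hX hX1
  have hlog : 0 ≤ Real.log X := Real.log_nonneg (by exact_mod_cast hX1)
  have hX0 : (0 : ℝ) ≤ (X : ℝ) ^ (1 / 4 : ℝ) := Real.rpow_nonneg (Nat.cast_nonneg X) _
  rw [Real.rpow_natCast, Real.norm_eq_abs, abs_of_nonneg (pow_nonneg hlog n),
    Real.norm_eq_abs, abs_of_nonneg hX0] at hX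
  have hK : 0 < |K| + 1 := by positivity
  have h4 : (|K| + 1) * Real.log X ^ n ≤ (X : ℝ) ^ (1 / 4 : ℝ) := by
    calc _ ≤ (|K| + 1) * (1 / (|K| + 1) * (X : ℝ) ^ (1 / 4 : ℝ)) :=
          mul_le_mul_of_nonneg_left hX hK.le
      _ = _ := by field_simp
  refine le_trans ?_ h4
  apply mul_le_mul_of_nonneg_right _ (pow_nonneg hlog n)
  linarith [le_abs_self K]

private lemma ev_log (K : ℝ) : ∀ᶠ X : ℕ in Filter.atTop, K ≤ Real.log X :=
  (Real.tendsto_log_atTop.comp (tendsto_natCast_atTop_atTop (R := ℝ))).eventually_ge_atTop K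

/-- coprime classes: characters, without squares -/
lemma GB_lin {w : ℝ → ℝ} {X q u : ℕ} [NeZero q] (hc : Nat.Coprime u q) (t : ℝ) :
    ‖GB w X q u t‖ ≤ 1 / (Nat.totient q : ℝ) *
      ∑ χ : DirichletCharacter ℂ q, ‖GA w χ X t‖ +
      ‖∑ m ∈ Icc 1 (3 * X), ((w (Real.log (m / X)) : ℝ) : ℂ) * ch t m / m‖ := by
  classical
  have hq : 0 < q := Nat.pos_of_ne_zero (NeZero.ne q)
  have hφ : (0 : ℝ) < Nat.totient q := by exact_mod_cast Nat.totient_pos.2 hq
  have hφ1 : (1 : ℝ) ≤ Nat.totient q := by exact_mod_cast Nat.totient_pos.2 hq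
  have hφc : ((Nat.totient q : ℕ) : ℂ) ≠ 0 := by exact_mod_cast hφ.ne'
  have huu : IsUnit ((u : ℕ) : ZMod q) := (ZMod.isUnit_iff_coprime u q).2 hc
  obtain ⟨W, hW⟩ : ∃ W : ℂ, W = ∑ m ∈ Icc 1 (3 * X),
    ((w (Real.log (m / X)) : ℝ) : ℂ) * ch t m / m := ⟨_, rfl⟩
  have key : GB w X q u t = 1 / ((Nat.totient q : ℕ) : ℂ) *
      (∑ χ : DirichletCharacter ℂ q, χ ((u : ZMod q)⁻¹) * GA w χ X t) -
      1 / ((Nat.totient q : ℕ) : ℂ) * W := by
    have e1 : ∑ χ : DirichletCharacter ℂ q, χ ((u : ZMod q)⁻¹) * GA w χ X t =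
        ∑ m ∈ Icc 1 (3 * X), (if (u : ZMod q) = (m : ZMod q) then ((Nat.totient q : ℕ) : ℂ) else 0) *
          (((Λ m * w (Real.log (m / X)) : ℝ) : ℂ) * ch t m / m) := by
      unfold GA
      simp_rw [Finset.mul_sum]
      rw [Finset.sum_comm]
      refine Finset.sum_congr rfl fun m _ => ?_
      rw [← DirichletCharacter.sum_char_inv_mul_char_eq ℂ huu (m : ZMod q), Finset.sum_mul]
      refine Finset.sum_congr rfl fun χ _ => ?_
      ring
    rw [e1, hW, Finset.mul_sum, Finset.mul_sum, ← Finset.sum_sub_distrib]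
    unfold GB
    refine Finset.sum_congr rfl fun m _ => ?_
    unfold gw
    rw [if_pos hc]
    by_cases hmu : m ≡ u [MOD q]
    · have h2 : (u : ZMod q) = (m : ZMod q) := ((ZMod.natCast_eq_natCast_iff _ _ _).2 hmu).symm
      rw [if_pos hmu, if_pos h2]
      push_cast
      field_simp
    · have h2 : ¬ (u : ZMod q) = (m : ZMod q) := fun h =>
        hmu ((ZMod.natCast_eq_natCast_iff _ _ _).1 h.symm)
      rw [if_neg hmu, if_neg h2]
      push_cast
      ring
  have nn : ∀ χ : DirichletCharacter ℂ q, ‖χ ((u : ZMod q)⁻¹) * GA w χ X t‖ ≤ ‖GA w χ X t‖ := by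
    intro χ
    rw [norm_mul]
    calc _ ≤ 1 * ‖GA w χ X t‖ := mul_le_mul_of_nonneg_right (χ.norm_le_one _) (norm_nonneg _)
      _ = _ := one_mul _
  rw [key, ← hW]
  refine (norm_sub_le _ _).trans (add_le_add ?_ ?_)
  · rw [norm_mul, norm_div, norm_one, Complex.norm_natCast]
    apply mul_le_mul_of_nonneg_left _ (by positivity)
    exact (norm_sum_le _ _).trans (Finset.sum_le_sum fun χ _ => nn χ)
  · rw [norm_mul, norm_div, norm_one, Complex.norm_natCast]
    calc _ ≤ 1 * ‖W‖ := by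
          apply mul_le_mul_of_nonneg_right _ (norm_nonneg _)
          rw [div_le_one hφ]
          exact hφ1
      _ = _ := one_mul _

/-! ### the restricted functions -/

lemma rg_nonneg (a b : ℝ) (f : ℝ → ℂ) (t : ℝ) : 0 ≤ rg a b f t := by
  unfold rg
  split_ifs
  · exact norm_nonneg _
  · exact le_rfl

lemma rg_in {a b : ℝ} {f : ℝ → ℂ} {t : ℝ} (h1 : a ≤ |t|) (h2 : |t| ≤ b) : rg a b f t = ‖f t‖ := by
  unfold rg
  rw [if_pos ⟨h1, h2⟩]

lemma rg_mono {a a' b : ℝ} (h : a' ≤ a) (f : ℝ → ℂ) (t : ℝ) : rg a b f t ≤ rg a' b f t := by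
  unfold rg
  by_cases h1 : a ≤ |t| ∧ |t| ≤ b
  · rw [if_pos h1, if_pos ⟨h.trans h1.1, h1.2⟩]
  · rw [if_neg h1]
    split_ifs
    · exact norm_nonneg _
    · exact le_rfl

lemma rg_ind {a b c : ℝ} {f : ℝ → ℂ} (hc : 0 ≤ c)
    (h : ∀ t : ℝ, a ≤ |t| → |t| ≤ b → ‖f t‖ ≤ c) (t : ℝ) :
    rg a b f t ≤ (Set.Icc (-b) b).indicator (fun _ => c) t := by
  unfold rg
  by_cases h1 : a ≤ |t| ∧ |t| ≤ b
  · rw [if_pos h1, Set.indicator_of_mem (show t ∈ Set.Icc (-b) b from abs_le.1 h1.2)]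
    exact h t h1.1 h1.2
  · rw [if_neg h1]
    exact Set.indicator_nonneg (fun _ _ => hc) t

lemma int_ind {b : ℝ} (hb : 0 ≤ b) (c : ℝ) :
    Integrable ((Set.Icc (-b) b).indicator (fun _ : ℝ => c)) ∧
    ∫ t : ℝ, (Set.Icc (-b) b).indicator (fun _ => c) t = 2 * b * c := by
  constructor
  · rw [integrable_indicator_iff measurableSet_Icc]
    exact integrableOn_const (by rw [Real.volume_Icc]; exact ENNReal.ofReal_ne_top)
  · rw [integral_indicator_const c measurableSet_Icc, Real.volume_real_Icc_of_le (by linarith),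
      smul_eq_mul]
    ring

lemma int_rg {a b c : ℝ} {f : ℝ → ℂ} (hb : 0 ≤ b) (hc : 0 ≤ c)
    (h : ∀ t : ℝ, a ≤ |t| → |t| ≤ b → ‖f t‖ ≤ c) : ∫ t, rg a b f t ≤ 2 * b * c := by
  rw [← (int_ind hb c).2]
  exact integral_mono_of_nonneg (Filter.Eventually.of_forall fun t => rg_nonneg a b f t)
    (int_ind hb c).1 (Filter.Eventually.of_forall fun t => rg_ind hc h t)

lemma int_rg_sq {a b c : ℝ} {f : ℝ → ℂ} (hb : 0 ≤ b) (hc : 0 ≤ c)
    (h : ∀ t : ℝ, a ≤ |t| → |t| ≤ b → ‖f t‖ ≤ c) : ∫ t, rg a b f t ^ 2 ≤ 2 * b * c ^ 2 := by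
  rw [← (int_ind hb (c ^ 2)).2]
  refine integral_mono_of_nonneg (Filter.Eventually.of_forall fun t => by positivity)
    (int_ind hb (c ^ 2)).1 (Filter.Eventually.of_forall fun t => ?_)
  have h1 := rg_ind hc h t
  have h0 := rg_nonneg a b f t
  by_cases ht : t ∈ Set.Icc (-b) b
  · rw [Set.indicator_of_mem ht] at h1 ⊢
    exact pow_le_pow_left₀ h0 h1 2
  · rw [Set.indicator_of_notMem ht] at h1 ⊢
    have h2 : rg a b f t = 0 := le_antisymm h1 h0
    simp only [h2]
    norm_num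

/-- the function `c / (1 + (t/b)²)` -/
lemma NF_cauchy {b c : ℝ} (hb : 0 < b) (hc : 0 ≤ c) :
    NF (fun t => c * (1 + (t / b) ^ 2)⁻¹) ∧
    ∫ t : ℝ, c * (1 + (t / b) ^ 2)⁻¹ = c * b * Real.pi := by
  have hint : Integrable (fun t : ℝ => c * (1 + (t / b) ^ 2)⁻¹) :=
    ((integrable_inv_one_add_sq).comp_div hb.ne').const_mul _
  refine ⟨⟨by fun_prop, fun s => by positivity, ⟨c, fun s => ?_⟩, hint⟩, ?_⟩
  · have h1 : (1 + (s / b) ^ 2)⁻¹ ≤ 1 := by
      apply inv_le_one_of_one_le₀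
      have : (0 : ℝ) ≤ (s / b) ^ 2 := by positivity
      linarith
    calc c * (1 + (s / b) ^ 2)⁻¹ ≤ c * 1 := mul_le_mul_of_nonneg_left h1 hc
      _ = c := mul_one c
  · rw [integral_const_mul, Measure.integral_comp_div (fun t : ℝ => (1 + t ^ 2)⁻¹) b,
      integral_univ_inv_one_add_sq, smul_eq_mul, abs_of_pos hb]
    ring

/-- subadditivity -/
lemma NQ_add {W : ℝ} (h2 : ∀ (ι : Type) (s : Finset ι) (F : ι → ℝ → ℝ), (∀ i ∈ s, NF (F i)) →
    NQ W (fun x => ∑ i ∈ s, F i x) ≤ s.card * ∑ i ∈ s, NQ W (F i)) {F G : ℝ → ℝ} (hF : NF F)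
    (hG : NF G) : NQ W (fun s => F s + G s) ≤ 2 * NQ W F + 2 * NQ W G := by
  have h := h2 (Fin 2) univ ![F, G] (by
    intro i _
    fin_cases i
    · exact hF
    · exact hG)
  simp only [Fin.sum_univ_two, Matrix.cons_val_zero, Matrix.cons_val_one, card_univ,
    Fintype.card_fin] at h
  push_cast at h
  linarith only [h]

/-- the splitting -/
lemma NQ_split (hN : StNfb) (hQ : StNqp) {W : ℝ} (hW : 1 ≤ W) {g : ℝ → ℂ} (hg : Continuous g)
    {G T b l c1 c2 : ℝ} (hG : ∀ t, ‖g t‖ ≤ G) (hT : 0 < T) (hb : 0 ≤ b) (hl : 1 ≤ l)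
    (h1 : ∀ t, |t| ≤ b → ‖g t‖ ≤ c1) {M : ℝ → ℝ} (hM : NF M)
    (h2 : ∀ t, b ≤ |t| → |t| ≤ T * l → ‖g t‖ ≤ M t) (h3 : NQ W M ≤ c2) :
    NQ W (fun t => Real.exp (-(t / T) ^ 2 / 2) * ‖g t‖) ≤ 2 * (2 * (2 * b * c1) ^ 2) + 4 * c2 +
      4 * (2 * (G * Real.exp (-(3 * l ^ 2 / 8)) * (6 * T)) ^ 2) := by
  obtain ⟨n1, n2, n3, n4, n5, n6, n7, n8⟩ := hN
  obtain ⟨q1, q2, q3, q4, q5, q6, q7, q8⟩ := hQ W hW
  have hG0 : 0 ≤ G := (norm_nonneg _).trans (hG 0)
  have hc1 : 0 ≤ c1 := (norm_nonneg _).trans (h1 0 (by rw [abs_zero]; exact hb))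
  obtain ⟨e, he⟩ : ∃ e : ℝ, e = Real.exp (-(3 * l ^ 2 / 8)) := ⟨_, rfl⟩
  have he0 : 0 < e := by rw [he]; exact Real.exp_pos _
  obtain ⟨F1, hF1⟩ : ∃ F : ℝ → ℝ, F = rg 0 b g := ⟨_, rfl⟩
  obtain ⟨F3, hF3⟩ : ∃ F : ℝ → ℝ, F = fun t => (G * e) *
    (Real.exp (-(t / (2 * T)) ^ 2 / 2) * ‖(1 : ℂ)‖) := ⟨_, rfl⟩
  have nF1 : NF F1 := by
    rw [hF1]
    exact n5 0 b g hg
  have nE : NF (fun t => Real.exp (-(t / (2 * T)) ^ 2 / 2) * ‖(1 : ℂ)‖) :=
    n6 (2 * T) 1 (fun _ => (1 : ℂ)) (by linarith) continuous_const (fun _ => by simp)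
  have nF3 : NF F3 := by
    rw [hF3]
    exact n3 _ (G * e) (by positivity) nE
  have nF : NF (fun t => Real.exp (-(t / T) ^ 2 / 2) * ‖g t‖) := n6 T G g hT hg hG
  have hM0 := hM.2.1
  have h30 := nF3.2.1
  have h10 := nF1.2.1
  have hpt : ∀ t, Real.exp (-(t / T) ^ 2 / 2) * ‖g t‖ ≤ F1 t + (M t + F3 t) := by
    intro t
    have hle : Real.exp (-(t / T) ^ 2 / 2) * ‖g t‖ ≤ ‖g t‖ := by
      have : Real.exp (-(t / T) ^ 2 / 2) ≤ 1 := by
        rw [Real.exp_le_one_iff]
        have : (0 : ℝ) ≤ (t / T) ^ 2 := by positivity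
        linarith
      calc _ ≤ 1 * ‖g t‖ := mul_le_mul_of_nonneg_right this (norm_nonneg _)
        _ = ‖g t‖ := one_mul _
    by_cases ht1 : |t| ≤ b
    · have e1 : F1 t = ‖g t‖ := by
        rw [hF1]
        exact rg_in (abs_nonneg t) ht1
      have e2 := hM0 t
      have e3 := h30 t
      linarith
    · push Not at ht1
      by_cases ht2 : |t| ≤ T * l
      · have e1 := h2 t ht1.le ht2
        have e2 := h10 t
        have e3 := h30 t
        linarith
      · push Not at ht2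
        have e1 : Real.exp (-(t / T) ^ 2 / 2) * ‖g t‖ ≤ F3 t := by
          rw [hF3]
          have h4 : l ^ 2 ≤ (t / T) ^ 2 := by
            rw [← sq_abs (t / T), abs_div, abs_of_pos hT]
            apply pow_le_pow_left₀ (by linarith)
            rw [le_div_iff₀ hT]
            linarith
          have h5 : Real.exp (-(t / T) ^ 2 / 2) ≤ e * Real.exp (-(t / (2 * T)) ^ 2 / 2) := by
            rw [he, ← Real.exp_add, Real.exp_le_exp]
            have h6 : (t / (2 * T)) ^ 2 = (t / T) ^ 2 / 4 := by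
              rw [div_pow, div_pow, mul_pow]
              field_simp
              norm_num
            rw [h6]
            linarith
          calc _ ≤ (e * Real.exp (-(t / (2 * T)) ^ 2 / 2)) * G :=
                mul_le_mul h5 (hG t) (norm_nonneg _) (by positivity)
            _ = _ := by
                simp only [norm_one]
                ring
        have e2 := h10 t
        have e3 := hM0 t
        linarith
  have b1 : NQ W F1 ≤ 2 * (2 * b * c1) ^ 2 := by
    refine (q4 F1 nF1).trans ?_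
    have i0 : 0 ≤ ∫ s, F1 s := integral_nonneg h10
    have i1 : ∫ s, F1 s ≤ 2 * b * c1 := by
      rw [hF1]
      exact int_rg hb hc1 (fun t _ ht => h1 t ht)
    have := pow_le_pow_left₀ i0 i1 2
    linarith
  have b3 : NQ W F3 ≤ 2 * (G * e * (6 * T)) ^ 2 := by
    refine (q4 F3 nF3).trans ?_
    have i0 : 0 ≤ ∫ s, F3 s := integral_nonneg h30
    have i1 : ∫ s, F3 s ≤ G * e * (6 * T) := by
      rw [hF3, integral_const_mul]
      apply mul_le_mul_of_nonneg_left _ (by positivity)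
      have i2 : (fun t : ℝ => Real.exp (-(t / (2 * T)) ^ 2 / 2) * ‖(1 : ℂ)‖) =
          fun t => Real.exp (-(1 / (8 * T ^ 2)) * t ^ 2) := by
        funext t
        rw [norm_one, mul_one]
        congr 1
        field_simp
        norm_num
      rw [i2, integral_gaussian]
      have i3 : Real.pi / (1 / (8 * T ^ 2)) ≤ (6 * T) ^ 2 := by
        have : Real.pi / (1 / (8 * T ^ 2)) = Real.pi * 8 * T ^ 2 := by field_simp
        rw [this]
        have := Real.pi_lt_d2
        nlinarith [sq_nonneg T]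
      exact Real.sqrt_le_iff.2 ⟨by positivity, i3⟩
    have := pow_le_pow_left₀ i0 i1 2
    linarith
  have nM3 : NF (fun t => M t + F3 t) := n1 M F3 hM nF3
  have s1 := q1 _ _ nF (n1 _ _ nF1 nM3) hpt
  have s2 := NQ_add q2 nF1 nM3
  have s3 := NQ_add q2 hM nF3
  rw [← he]
  linarith

theorem hTOW : StHiw → StNfb → StNqp → StLow → StTow := by
  classical
  intro hif0 hN hQ low0 w hw A B D ε hε hε2
  have hN' := hN
  have hQ' := hQ
  obtain ⟨n1, n2, n3, n4, n5, n6, n7, n8⟩ := hN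
  obtain ⟨B1, X1, hif⟩ := hif0 w hw (A + 3) B (D + 1) ε hε hε2
  obtain ⟨B2, hB2⟩ : ∃ B2 : ℕ, B2 = max B1 (A + 5) := ⟨_, rfl⟩
  obtain ⟨X2, low⟩ := low0 w hw (A + 2 * B2 + 3) B
  obtain ⟨C, hC1, hsm⟩ := smooth_TOW hw
  have ev : ∀ᶠ X : ℕ in Filter.atTop, X1 ≤ X ∧ X2 ≤ X ∧ 3 ≤ X ∧ 16 ≤ Real.log X ∧
      16384 * C ^ 2 ≤ Real.log X ∧
      1024 * Real.log X ^ (A + (2 * B + D + 3)) ≤ (X : ℝ) ^ (1 / 4 : ℝ) ∧
      1024 * C ^ 2 * Real.log X ^ (A + (3 * D + 3)) ≤ (X : ℝ) ^ (1 / 4 : ℝ) ∧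
      93312 * Real.log X ^ (A + (2 * D + 2)) ≤ (X : ℝ) ^ (1 / 4 : ℝ) := by
    filter_upwards [Filter.eventually_ge_atTop X1, Filter.eventually_ge_atTop X2,
      Filter.eventually_ge_atTop 3, ev_log 16, ev_log (16384 * C ^ 2),
      ev_pow (A + (2 * B + D + 3)) 1024,
      ev_pow (A + (3 * D + 3)) (1024 * C ^ 2), ev_pow (A + (2 * D + 2)) 93312]
      with X a1 a2 a3 a4 a5 a6 a7 a8
    exact ⟨a1, a2, a3, a4, a5, a6, a7, a8⟩
  obtain ⟨X0, hX0⟩ := Filter.eventually_atTop.1 ev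
  refine ⟨X0, fun X hX q u W hq hqB hW1 hW2 => ?_⟩
  obtain ⟨a1, a2, a3, a4, a5, a6, a7, a8⟩ := hX0 X hX
  obtain ⟨q1, q2, q3, q4, q5, q6, q7, q8⟩ := hQ W hW1
  have hne : NeZero q := ⟨by omega⟩
  have hXp : (0 : ℝ) < X := by positivity
  have hX3 : (3 : ℝ) ≤ X := by exact_mod_cast a3
  obtain ⟨L, hL⟩ : ∃ L : ℝ, L = Real.log X := ⟨_, rfl⟩
  rw [← hL] at a4 a5 a6 a7 a8 hqB ⊢
  have hL1 : 1 ≤ L := by linarith
  have hL0 : 0 < L := by linarith
  obtain ⟨ρ, hρ⟩ : ∃ ρ : ℝ, ρ = (X : ℝ) ^ (1 / 4 : ℝ) := ⟨_, rfl⟩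
  rw [← hρ] at a6 a7 a8
  have hρ0 : 0 < ρ := by rw [hρ]; exact Real.rpow_pos_of_pos hXp _
  have hρ1 : 1 ≤ ρ := by
    rw [hρ]
    exact Real.one_le_rpow (by linarith) (by norm_num)
  have hρ4 : ρ ^ 4 = X := by
    rw [hρ, ← Real.rpow_natCast, ← Real.rpow_mul hXp.le]
    norm_num
  have hWρ : W ≤ ρ := by
    refine hW2.trans ?_
    rw [hρ]
    exact Real.rpow_le_rpow_of_exponent_le (by linarith) (by linarith)
  obtain ⟨r, hr⟩ : ∃ r : ℝ, r = √(X : ℝ) := ⟨_, rfl⟩
  have hrρ : r = ρ ^ 2 := by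
    rw [hr, ← hρ4, show ρ ^ 4 = (ρ ^ 2) ^ 2 by ring, Real.sqrt_sq (by positivity)]
  have hr0 : 0 < r := by rw [hrρ]; positivity
  have hrr : r ^ 2 = X := by rw [hrρ, ← hρ4]; ring
  rw [← hr]
  obtain ⟨P, hP⟩ : ∃ P : ℝ, P = L ^ A := ⟨_, rfl⟩
  have hP1 : 1 ≤ P := by rw [hP]; exact one_le_pow₀ hL1
  have hP0 : 0 < P := by linarith
  obtain ⟨b, hb⟩ : ∃ b : ℝ, b = L ^ B2 := ⟨_, rfl⟩
  have hb1 : 1 ≤ b := by rw [hb]; exact one_le_pow₀ hL1
  have hlog3 : Real.log (3 * X) ≤ 2 * L := by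
    rw [Real.log_mul (by norm_num) hXp.ne', hL]
    have : Real.log 3 ≤ Real.log X := Real.log_le_log (by norm_num) hX3
    linarith
  have hlog30 : 0 ≤ Real.log (3 * X) := Real.log_nonneg (by linarith)
  obtain ⟨T, hT⟩ : ∃ T : ℝ, T = r * L ^ D := ⟨_, rfl⟩
  have hT0 : 0 < T := by rw [hT]; positivity
  have hTl : T * L = r * L ^ (D + 1) := by rw [hT, pow_succ]; ring
  -- bounds for `g`
  have hG : ∀ t, ‖GB w X q u t‖ ≤ 9 * L := by
    intro t
    have := GB_bound_TOT hw (by omega : 1 ≤ X) hq (u := u) t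
    linarith
  have hc1 : ∀ t, |t| ≤ b → ‖GB w X q u t‖ ≤ (1 + b) / L ^ (A + 2 * B2 + 3) := by
    intro t ht
    have h := low X a2 q u t hq (by rw [← hL]; exact hqB)
    rw [← hL] at h
    refine h.trans ?_
    apply div_le_div_of_nonneg_right _ (by positivity)
    linarith
  -- the middle range
  have hconst : ∀ c : ℝ, 0 ≤ c → NF (rg b (T * L) (fun _ => (c : ℂ))) ∧
      NQ W (rg b (T * L) (fun _ => (c : ℂ))) ≤ 8 * ρ * (T * L) * c ^ 2 := by
    intro c hc
    have nr : NF (rg b (T * L) (fun _ => (c : ℂ))) := n5 _ _ _ continuous_const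
    refine ⟨nr, (q5 _ nr).trans ?_⟩
    have h1 : ∫ s, rg b (T * L) (fun _ => (c : ℂ)) s ^ 2 ≤ 2 * (T * L) * c ^ 2 :=
      int_rg_sq (by positivity) hc (fun t _ _ => by
        rw [Complex.norm_real, Real.norm_eq_abs, abs_of_nonneg hc])
    calc 4 * W * ∫ s, rg b (T * L) (fun _ => (c : ℂ)) s ^ 2 ≤ 4 * ρ * (2 * (T * L) * c ^ 2) := by
          refine mul_le_mul (by linarith) h1 ?_ (by positivity)
          exact integral_nonneg fun t => by positivity
      _ = _ := by ring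
  have hmid : ∃ M : ℝ → ℝ, NF M ∧ (∀ t, b ≤ |t| → |t| ≤ T * L → ‖GB w X q u t‖ ≤ M t) ∧
      NQ W M ≤ 1 / (8 * P) := by
    by_cases hcop : Nat.Coprime u q
    · have hφ : (0 : ℝ) < Nat.totient q := by exact_mod_cast Nat.totient_pos.2 hq
      have hcard : (univ : Finset (DirichletCharacter ℂ q)).card = Nat.totient q := by
        rw [← Nat.card_eq_fintype_card.symm.trans
          (DirichletCharacter.card_eq_totient_of_hasEnoughRootsOfUnity ℂ q)]
        simp
      have nA : ∀ χ : DirichletCharacter ℂ q, NF (rg b (T * L) (fun t => GA w χ X t)) :=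
        fun χ => n5 _ _ _ (cont_GA_TOT w χ X)
      have hGA : ∀ χ : DirichletCharacter ℂ q,
          NQ W (rg b (T * L) (fun t => GA w χ X t)) ≤ 1 / L ^ (A + 3) := by
        intro χ
        have h := hif X a1 q χ W (by rw [← hL]; exact hqB) hW1 hW2
        rw [← hL, ← hr, ← hTl] at h
        refine le_trans (q1 _ _ (nA χ) (n5 _ _ _ (cont_GA_TOT w χ X)) fun s => ?_) h
        refine rg_mono ?_ _ s
        rw [hb]
        exact pow_le_pow_right₀ hL1 (by rw [hB2]; exact le_max_left _ _)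
      obtain ⟨MA, hMA⟩ : ∃ M : ℝ → ℝ, M = fun t => 1 / (Nat.totient q : ℝ) *
        ∑ χ : DirichletCharacter ℂ q, rg b (T * L) (fun t => GA w χ X t) t := ⟨_, rfl⟩
      have nS : NF (fun t => ∑ χ : DirichletCharacter ℂ q,
          rg b (T * L) (fun t => GA w χ X t) t) := n4 _ univ _ (fun χ _ => nA χ)
      have nMA : NF MA := by
        rw [hMA]
        exact n3 _ _ (by positivity) nS
      have bMA : NQ W MA ≤ 1 / L ^ (A + 3) := by
        rw [hMA, q7]
        have h2 := q2 _ univ (fun (χ : DirichletCharacter ℂ q) t =>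
          rg b (T * L) (fun t => GA w χ X t) t) (fun χ _ => nA χ)
        rw [hcard] at h2
        have h3 : ∑ χ : DirichletCharacter ℂ q, NQ W (fun t =>
            rg b (T * L) (fun t => GA w χ X t) t) ≤ (Nat.totient q : ℝ) * (1 / L ^ (A + 3)) := by
          calc _ ≤ ∑ χ : DirichletCharacter ℂ q, 1 / L ^ (A + 3) :=
                Finset.sum_le_sum fun χ _ => hGA χ
            _ = _ := by rw [Finset.sum_const, hcard, nsmul_eq_mul]
        calc _ ≤ (1 / (Nat.totient q : ℝ)) ^ 2 * ((Nat.totient q : ℝ) *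
              ((Nat.totient q : ℝ) * (1 / L ^ (A + 3)))) := by
              apply mul_le_mul_of_nonneg_left _ (by positivity)
              exact h2.trans (mul_le_mul_of_nonneg_left h3 hφ.le)
          _ = _ := by field_simp
      obtain ⟨nP1, iP1⟩ := NF_cauchy (b := b) (c := 2 * C / b ^ 2) (by linarith) (by positivity)
      have bP1 : NQ W (fun t => 2 * C / b ^ 2 * (1 + (t / b) ^ 2)⁻¹) ≤
          2 * (2 * C / b * Real.pi) ^ 2 := by
        have h := q4 _ nP1
        rw [iP1] at h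
        refine h.trans (le_of_eq ?_)
        have : 2 * C / b ^ 2 * b = 2 * C / b := by
          have hb0 : b ≠ 0 := by linarith
          field_simp
        rw [this]
      obtain ⟨nP2, bP2⟩ := hconst (C * (T * L / X)) (by positivity)
      refine ⟨fun t => MA t + ((fun t => 2 * C / b ^ 2 * (1 + (t / b) ^ 2)⁻¹) t +
        rg b (T * L) (fun _ => ((C * (T * L / X) : ℝ) : ℂ)) t), n1 _ _ nMA (n1 _ _ nP1 nP2), ?_, ?_⟩
      · intro t ht1 ht2
        refine (GB_lin hcop t).trans (add_le_add ?_ ?_)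
        · rw [hMA]
          apply mul_le_mul_of_nonneg_left _ (by positivity)
          refine Finset.sum_le_sum fun χ _ => ?_
          rw [rg_in ht1 ht2]
        · refine (hsm X t (by omega) (hb1.trans ht1)).trans ?_
          rw [rg_in ht1 ht2, Complex.norm_real, Real.norm_eq_abs,
            abs_of_nonneg (by positivity : (0 : ℝ) ≤ C * (T * L / X)), mul_add]
          refine add_le_add ?_ ?_
          · have hb0 : 0 < b := by linarith
            have h2 : b ^ 2 ≤ t ^ 2 := by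
              rw [← sq_abs t]
              exact pow_le_pow_left₀ hb0.le ht1 2
            have h3 : 0 < t ^ 2 := lt_of_lt_of_le (by positivity) h2
            have h4 : 2 * C / b ^ 2 * (1 + (t / b) ^ 2)⁻¹ = C * (2 / (b ^ 2 + t ^ 2)) := by
              field_simp
            simp only
            rw [h4]
            apply mul_le_mul_of_nonneg_left _ (by linarith)
            rw [div_le_div_iff₀ h3 (by positivity)]
            linarith
          · apply mul_le_mul_of_nonneg_left _ (by linarith)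
            exact div_le_div_of_nonneg_right ht2 hXp.le
      · have s1 := NQ_add q2 nMA (n1 _ _ nP1 nP2)
        have s2 := NQ_add q2 nP1 nP2
        have e1 : 2 * (1 / L ^ (A + 3)) ≤ 1 / (32 * P) := by
          rw [pow_add, ← hP, mul_one_div, div_le_div_iff₀ (by positivity) (by positivity)]
          have : (64 : ℝ) ≤ L ^ 3 := by nlinarith [pow_le_pow_left₀ (by norm_num) a4 3]
          nlinarith
        have e2 : 4 * (2 * (2 * C / b * Real.pi) ^ 2) ≤ 1 / (32 * P) := by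
          have h3 : P * L ^ 5 ≤ b := by
            rw [hP, hb, ← pow_add]
            exact pow_le_pow_right₀ hL1 (by rw [hB2]; exact le_max_right _ _)
          have h4 : L ≤ L ^ 5 := le_self_pow₀ hL1 (by norm_num)
          have hpi : Real.pi < 4 := by linarith [Real.pi_lt_d2]
          have hpi0 := Real.pi_pos
          have hC0 : 0 < C ^ 2 := by positivity
          have hb0 : 0 < b := by linarith
          have h5 : 4 * (2 * (2 * C / b * Real.pi) ^ 2) = 32 * C ^ 2 * Real.pi ^ 2 / b ^ 2 := by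
            field_simp
            ring
          rw [h5, div_le_div_iff₀ (by positivity) (by positivity)]
          have h6 : Real.pi ^ 2 ≤ 16 := by nlinarith
          have h7 : P * (16384 * C ^ 2) ≤ b := by
            refine le_trans ?_ h3
            exact mul_le_mul_of_nonneg_left (a5.trans h4) hP0.le
          calc 32 * C ^ 2 * Real.pi ^ 2 * (32 * P) ≤ 32 * C ^ 2 * 16 * (32 * P) := by
                apply mul_le_mul_of_nonneg_right _ (by positivity)
                exact mul_le_mul_of_nonneg_left h6 (by positivity)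
            _ = P * (16384 * C ^ 2) := by ring
            _ ≤ b := h7
            _ ≤ 1 * b ^ 2 := by nlinarith
        have e3 : 4 * (8 * ρ * (T * L) * (C * (T * L / X)) ^ 2) ≤ 1 / (32 * P) := by
          rw [hTl, ← hrr, hrρ]
          have : 4 * (8 * ρ * (ρ ^ 2 * L ^ (D + 1)) * (C * (ρ ^ 2 * L ^ (D + 1) / (ρ ^ 2) ^ 2)) ^ 2) =
              32 * C ^ 2 * L ^ (3 * D + 3) / ρ := by
            field_simp
            ring
          rw [this, div_le_div_iff₀ hρ0 (by positivity), one_mul]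
          refine le_trans (le_of_eq ?_) a7
          rw [pow_add L A, hP]
          ring
        have e4 : 1 / (32 * P) + 1 / (32 * P) + 1 / (32 * P) ≤ 1 / (8 * P) := by
          rw [show 1 / (32 * P) + 1 / (32 * P) + 1 / (32 * P) = 3 / (32 * P) by ring,
            div_le_div_iff₀ (by positivity) (by positivity)]
          nlinarith
        linarith
    · obtain ⟨nP2, bP2⟩ := hconst (4 * L ^ (B + 1) / X) (by positivity)
      refine ⟨_, nP2, ?_, bP2.trans ?_⟩
      · intro t ht1 ht2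
        rw [rg_in ht1 ht2, Complex.norm_real, Real.norm_eq_abs,
          abs_of_nonneg (by positivity : (0 : ℝ) ≤ 4 * L ^ (B + 1) / X)]
        refine (GB_ncop_TOT hw (by omega) hq hcop t).trans ?_
        apply div_le_div_of_nonneg_right _ hXp.le
        have f1 : (Nat.log 2 (3 * X) : ℝ) ≤ 4 * L := by
          have g1 : ((2 : ℝ) ^ Nat.log 2 (3 * X)) ≤ 3 * X := by
            exact_mod_cast Nat.pow_log_le_self 2 (by omega : 3 * X ≠ 0)
          have g2 := Real.log_le_log (by positivity) g1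
          rw [Real.log_pow] at g2
          have g3 : (1 / 2 : ℝ) ≤ Real.log 2 := by linarith [Real.log_two_gt_d9]
          have g4 : (0 : ℝ) ≤ (Nat.log 2 (3 * X) : ℝ) := Nat.cast_nonneg _
          nlinarith
        have f2 : Real.log q ≤ L ^ B :=
          ((Real.log_le_sub_one_of_pos (by positivity)).trans (by linarith)).trans hqB
        have f3 : 0 ≤ Real.log q := Real.log_natCast_nonneg q
        calc _ ≤ 4 * L * L ^ B := mul_le_mul f1 f2 f3 (by positivity)
          _ = _ := by ring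
      · rw [hTl, ← hrr, hrρ]
        have : 8 * ρ * (ρ ^ 2 * L ^ (D + 1)) * (4 * L ^ (B + 1) / (ρ ^ 2) ^ 2) ^ 2 =
            128 * L ^ (2 * B + D + 3) / ρ ^ 5 := by
          field_simp
          ring
        rw [this, div_le_div_iff₀ (by positivity) (by positivity), one_mul]
        calc 128 * L ^ (2 * B + D + 3) * (8 * P) = 1024 * L ^ (A + (2 * B + D + 3)) := by
              rw [pow_add L A, hP]
              ring
          _ ≤ ρ := a6
          _ ≤ ρ ^ 5 := le_self_pow₀ hρ1 (by norm_num)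
  obtain ⟨M, nM, hM1, hM2⟩ := hmid
  have main := NQ_split hN' hQ' hW1 (cont_GB_TOT w X q u) hG hT0 (by linarith : 0 ≤ b) hL1
    hc1 nM hM1 hM2
  rw [← hT]
  refine main.trans ?_
  have e1 : 2 * (2 * (2 * b * ((1 + b) / L ^ (A + 2 * B2 + 3))) ^ 2) ≤ 1 / (8 * P) := by
    have h3 : L ^ (A + 2 * B2 + 3) = P * b ^ 2 * L ^ 3 := by
      rw [hP, hb]
      ring
    have hb0 : 0 < b := by linarith
    have h4 : 2 * b * ((1 + b) / L ^ (A + 2 * B2 + 3)) ≤ 4 / (P * L ^ 3) := by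
      rw [h3, mul_div_assoc', div_le_div_iff₀ (by positivity) (by positivity)]
      have : 2 * b * (1 + b) ≤ 4 * b ^ 2 := by nlinarith
      calc 2 * b * (1 + b) * (P * L ^ 3) ≤ 4 * b ^ 2 * (P * L ^ 3) :=
            mul_le_mul_of_nonneg_right this (by positivity)
        _ = _ := by ring
    have h5 : (2 * b * ((1 + b) / L ^ (A + 2 * B2 + 3))) ^ 2 ≤ (4 / (P * L ^ 3)) ^ 2 :=
      pow_le_pow_left₀ (by positivity) h4 2
    have h6 : 2 * (2 * (4 / (P * L ^ 3)) ^ 2) ≤ 1 / (8 * P) := by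
      have h7 : 2 * (2 * (4 / (P * L ^ 3)) ^ 2) = 64 / (P ^ 2 * L ^ 6) := by
        field_simp
        ring
      rw [h7, div_le_div_iff₀ (by positivity) (by positivity), one_mul]
      have h8 : (512 : ℝ) ≤ L ^ 6 := by
        calc (512 : ℝ) ≤ 16 ^ 6 := by norm_num
          _ ≤ L ^ 6 := pow_le_pow_left₀ (by norm_num) a4 6
      calc 64 * (8 * P) = P * 1 * 512 := by ring
        _ ≤ P * P * L ^ 6 := by gcongr
        _ = _ := by ring
    linarith
  have e3 : 4 * (2 * (9 * L * Real.exp (-(3 * L ^ 2 / 8)) * (6 * T)) ^ 2) ≤ 1 / (4 * P) := by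
    have h3 : Real.exp (-(3 * L ^ 2 / 8)) ≤ 1 / X := by
      calc _ ≤ Real.exp (-L) := by
            rw [Real.exp_le_exp]
            nlinarith
        _ = 1 / X := by rw [Real.exp_neg, hL, Real.exp_log hXp, one_div]
    have h4 : 9 * L * Real.exp (-(3 * L ^ 2 / 8)) * (6 * T) ≤ 9 * L * (1 / X) * (6 * T) := by
      apply mul_le_mul_of_nonneg_right _ (by positivity)
      exact mul_le_mul_of_nonneg_left h3 (by positivity)
    have h5 := pow_le_pow_left₀ (by positivity) h4 2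
    have h6 : 4 * (2 * (9 * L * (1 / X) * (6 * T)) ^ 2) ≤ 1 / (4 * P) := by
      have h7 : 4 * (2 * (9 * L * (1 / X) * (6 * T)) ^ 2) = 23328 * L ^ (2 * D + 2) / ρ ^ 4 := by
        rw [hT, ← hρ4, hrρ]
        field_simp
        ring
      rw [h7, div_le_div_iff₀ (by positivity) (by positivity), one_mul]
      calc 23328 * L ^ (2 * D + 2) * (4 * P) = 93312 * L ^ (A + (2 * D + 2)) := by
            rw [pow_add L A, hP]
            ring
        _ ≤ ρ := a8
        _ ≤ ρ ^ 4 := le_self_pow₀ hρ1 (by norm_num)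
    linarith
  have e4 : 1 / (8 * P) + 4 * (1 / (8 * P)) + 1 / (4 * P) ≤ 1 / P := by
    rw [show 1 / (8 * P) + 4 * (1 / (8 * P)) + 1 / (4 * P) = 7 / (8 * P) by field_simp; norm_num,
      div_le_div_iff₀ (by positivity) (by positivity)]
    nlinarith
  rw [← hP]
  linarith

end Pool.Agent.Helper7.GW
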